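import Mathlib

set_option autoImplicit false

namespace Pool.Agent.Results.MP_722163_an.Bicyclic

open Set Filter Topology

/-- the relations `a b = e` and `a c = e` on the generators `a = 0`, `b = 1`, `c = 2` -/
def rels (u v : FreeMonoid (Fin 3)) : Prop :=
  (u = FreeMonoid.of 0 * FreeMonoid.of 1 ∨ u = FreeMonoid.of 0 * FreeMonoid.of 2) ∧ v = 1

/-- the partially bicyclic semigroup -/
abbrev S₂ : Type := PresentedMonoid rels

theorem exists_min {Y : Type*} [TopologicalSpace Y] [CompactSpace Y] (P : Set Y → Prop)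
    (hP : ∀ c : Set (Set Y), (∀ s ∈ c, P s) → P (⋂₀ c)) (M₀ : Set Y) (h1 : IsClosed M₀)
    (h2 : M₀.Nonempty) (h3 : P M₀) : ∃ M ⊆ M₀, IsClosed M ∧ M.Nonempty ∧ P M ∧
      ∀ M' ⊆ M, IsClosed M' → M'.Nonempty → P M' → M ⊆ M' := by
  obtain ⟨M, hM, hM'⟩ := zorn_superset_nonempty {s : Set Y | IsClosed s ∧ s.Nonempty ∧ P s}
    (fun c hc hch hne => by
      haveI := hne.to_subtype
      exact ⟨⋂₀ c, ⟨isClosed_sInter fun s hs => (hc hs).1,
        IsCompact.nonempty_sInter_of_directed_nonempty_isCompact_isClosed (fun s hs t ht => by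
            rcases hch.total hs ht with h | h
            · exact ⟨s, hs, Subset.rfl, h⟩
            · exact ⟨t, ht, h, Subset.rfl⟩)
          (fun s hs => (hc hs).2.1) (fun s hs => (hc hs).1.isCompact) (fun s hs => (hc hs).1),
        hP c fun s hs => (hc hs).2.2⟩, fun s hs => sInter_subset_of_mem hs⟩) M₀ ⟨h1, h2, h3⟩
  exact ⟨M, hM, hM'.1.1, hM'.1.2.1, hM'.1.2.2, fun M' h a b c => hM'.2 ⟨a, b, c⟩ h⟩

theorem main {V Y : Type*} [NormedAddCommGroup V] [NormedSpace ℝ V] [TopologicalSpace Y]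
    [CompactSpace Y] [T2Space Y] [Nonempty Y] (j : Y → V) (hj : Function.Injective j)
    (hconv : Convex ℝ (range j)) (hball : ∀ v r, IsClosed {y | dist (j y) v ≤ r})
    (hsep : TopologicalSpace.IsSeparable (range j)) (e a b c : Y → Y)
    (hb : Continuous b) (hc : Continuous c)
    (ne : ∀ x y, dist (j (e x)) (j (e y)) ≤ dist (j x) (j y))
    (na : ∀ x y, dist (j (a x)) (j (a y)) ≤ dist (j x) (j y))
    (nb : ∀ x y, dist (j (b x)) (j (b y)) ≤ dist (j x) (j y))
    (nc : ∀ x y, dist (j (c x)) (j (c y)) ≤ dist (j x) (j y))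
    (hab : ∀ x, a (b x) = e x) (hac : ∀ x, a (c x) = e x)
    (heb : ∀ x, e (b x) = b x) (hec : ∀ x, e (c x) = c x) :
    ∃ x, e x = x ∧ a x = x ∧ b x = x ∧ c x = x := by
  classical
  obtain ⟨M, -, hM1, hM2, ⟨hM3, hM4⟩, hM5⟩ := exists_min
    (fun M : Set Y => (∀ f ∈ [e, a, b, c], MapsTo f M M) ∧
      ∀ x ∈ M, ∀ y ∈ M, ∀ s t : ℝ, 0 ≤ s → 0 ≤ t → s + t = 1 → ∀ z, j z = s • j x + t • j y → z ∈ M)
    (fun C hC => ⟨fun f hf x hx s hs => (hC s hs).1 f hf (hx s hs),
      fun x hx y hy s t h1 h2 h3 z hz S hS => (hC S hS).2 x (hx S hS) y (hy S hS) s t h1 h2 h3 z hz⟩)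
    univ isClosed_univ univ_nonempty ⟨fun _ _ => mapsTo_univ _ _, fun _ _ _ _ _ _ _ _ _ _ _ => trivial⟩
  obtain ⟨K, hKM, hK1, hK2, ⟨hKb, hKc⟩, hK5⟩ := exists_min
    (fun K : Set Y => MapsTo b K K ∧ MapsTo c K K)
    (fun C hC => ⟨fun x hx s hs => (hC s hs).1 (hx s hs), fun x hx s hs => (hC s hs).2 (hx s hs)⟩)
    M hM1 hM2 ⟨hM3 b (by simp), hM3 c (by simp)⟩
  have hKe : ∀ x ∈ K, e x = x := by
    intro x hx
    have hsub : b '' K ∪ c '' K ⊆ K := union_subset hKb.image_subset hKc.image_subset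
    rcases hK5 _ hsub ((hK1.isCompact.image hb).isClosed.union (hK1.isCompact.image hc).isClosed)
      (hK2.image b).inl ⟨fun y hy => Or.inl ⟨y, hsub hy, rfl⟩, fun y hy => Or.inr ⟨y, hsub hy, rfl⟩⟩
      hx with ⟨y, -, rfl⟩ | ⟨y, -, rfl⟩
    · exact heb y
    · exact hec y
  have hexp : ∀ f : Y → Y, (∀ x, a (f x) = e x) →
      ∀ x ∈ K, ∀ y ∈ K, dist (j x) (j y) ≤ dist (j (f x)) (j (f y)) := by
    intro f hf x hx y hy
    have := na (f x) (f y)
    rwa [hf, hf, hKe x hx, hKe y hy] at this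
  have hfin : ∀ ε : ℝ, 0 < ε → ∃ t : Finset Y, (∀ x ∈ t, x ∈ K) ∧
      ∀ y ∈ K, ∃ x ∈ t, dist (j y) (j x) ≤ ε := by
    intro ε hε
    obtain ⟨D, hD, hD'⟩ := hsep
    haveI := hD.to_subtype
    haveI := isCompact_iff_compactSpace.1 hK1.isCompact
    haveI := hK2.to_subtype
    obtain ⟨d, z, hz⟩ := nonempty_interior_of_iUnion_of_closed
      (f := fun d : D => (Subtype.val : K → Y) ⁻¹' {y | dist (j y) d.1 ≤ ε / 2})
      (fun d => (hball _ _).preimage continuous_subtype_val) (eq_univ_of_forall fun y => by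
        obtain ⟨d, hd, hd'⟩ := Metric.mem_closure_iff.1 (hD' ⟨y.1, rfl⟩) (ε / 2) (by linarith)
        exact mem_iUnion.2 ⟨⟨d, hd⟩, hd'.le⟩)
    obtain ⟨O, hO, hO'⟩ := isOpen_induced_iff.1 (isOpen_interior (s :=
      (Subtype.val : K → Y) ⁻¹' {y | dist (j y) d.1 ≤ ε / 2}))
    rw [← hO'] at hz
    have hOd : ∀ y ∈ K, y ∈ O → dist (j y) d.1 ≤ ε / 2 := fun y hy hy' =>
      interior_subset (s := (Subtype.val : K → Y) ⁻¹' {y | dist (j y) d.1 ≤ ε / 2})
        (a := ⟨y, hy⟩) (by rw [← hO']; exact hy')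
    let W : Set (Y → Y) := {w | Continuous w ∧ MapsTo w K K ∧
      ∀ x ∈ K, ∀ y ∈ K, dist (j x) (j y) ≤ dist (j (w x)) (j (w y))}
    have hW : ∀ x ∈ K, ∃ w ∈ W, w x ∈ O := by
      intro x hx
      by_contra hcon
      have hcomp : ∀ f : Y → Y, Continuous f → MapsTo f K K → (∀ x, a (f x) = e x) →
          MapsTo f (K \ ⋃ w ∈ W, w ⁻¹' O) (K \ ⋃ w ∈ W, w ⁻¹' O) := by
        intro f h1 h2 h3 y hy
        refine ⟨h2 hy.1, fun h => hy.2 ?_⟩
        obtain ⟨w, hw, hw'⟩ := mem_iUnion₂.1 h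
        exact mem_biUnion (x := w ∘ f) ⟨hw.1.comp h1, hw.2.1.comp h2, fun p hp q hq =>
          (hexp f h3 p hp q hq).trans (hw.2.2 _ (h2 hp) _ (h2 hq))⟩ hw'
      refine (hK5 (K \ ⋃ w ∈ W, w ⁻¹' O) sdiff_subset
        (hK1.sdiff (isOpen_biUnion fun w hw => hO.preimage hw.1))
        ⟨x, hx, fun h => hcon (by simpa using h)⟩ ⟨hcomp b hb hKb hab, hcomp c hc hKc hac⟩ z.2).2 ?_
      exact mem_biUnion (x := id) ⟨continuous_id, mapsTo_id _, fun _ _ _ _ => le_rfl⟩ hz
    choose! w hw hw' using hW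
    obtain ⟨t, ht, ht'⟩ := hK1.isCompact.elim_nhds_subcover (fun x => w x ⁻¹' O)
      fun x hx => (hO.preimage (hw x hx).1).mem_nhds (hw' x hx)
    refine ⟨t, ht, fun y hy => ?_⟩
    obtain ⟨x, hx, hx'⟩ := mem_iUnion₂.1 (ht' hy)
    have hxK := ht x hx
    refine ⟨x, hx, ((hw x hxK).2.2 y hy x hxK).trans ((dist_triangle_right _ _ d.1).trans ?_)⟩
    linarith [hOd _ ((hw x hxK).2.1 hy) hx', hOd _ ((hw x hxK).2.1 hxK) (hw' x hxK)]
  have hdense : ∀ f : Y → Y, MapsTo f K K → (∀ x, a (f x) = e x) → ∀ x ∈ K, ∀ ε : ℝ, 0 < ε →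
      ∃ y ∈ K, dist (j (f y)) (j x) ≤ ε := by
    intro f h1 h2 x hx ε hε
    obtain ⟨t, -, ht⟩ := hfin (ε / 2) (by linarith)
    choose g hg hg' using fun n : ℕ => ht (f^[n] x) (h1.iterate n hx)
    obtain ⟨m, n, hmn, he⟩ := t.finite_toSet.exists_lt_map_eq_of_forall_mem (f := g) hg
    obtain ⟨k, rfl⟩ := Nat.exists_eq_add_of_lt hmn
    have hit : ∀ i, ∀ p ∈ K, ∀ q ∈ K, dist (j p) (j q) ≤ dist (j (f^[i] p)) (j (f^[i] q)) := by
      intro i
      induction i with
      | zero => exact fun _ _ _ _ => le_rfl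
      | succ i ih => exact fun p hp q hq => (hexp f h2 p hp q hq).trans (ih _ (h1 hp) _ (h1 hq))
    refine ⟨f^[k] x, h1.iterate k hx, (hit m _ (h1 (h1.iterate k hx)) _ hx).trans ?_⟩
    have h3 := hg' (m + k + 1)
    rw [← he, add_assoc, Function.iterate_add_apply, Function.iterate_succ_apply'] at h3
    linarith [hg' m, dist_triangle_right (j (f^[m] (f (f^[k] x)))) (j (f^[m] x)) (j (g m))]
  have hbdd : Bornology.IsBounded (j '' K) := by
    obtain ⟨t, -, ht⟩ := hfin 1 one_pos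
    refine ((Bornology.isBounded_biUnion_finset t).2 fun x _ =>
      Metric.isBounded_closedBall (x := j x) (r := 1)).subset ?_
    rintro _ ⟨y, hy, rfl⟩
    obtain ⟨x, hx, hx'⟩ := ht y hy
    exact mem_biUnion hx hx'
  have hD : ∀ x ∈ K, ∀ y ∈ K, dist (j x) (j y) ≤ Metric.diam (j '' K) := fun x hx y hy =>
    Metric.dist_le_diam_of_mem hbdd ⟨x, hx, rfl⟩ ⟨y, hy, rfl⟩
  have hD0 : Metric.diam (j '' K) ≤ 0 := by
    by_contra hcon
    rw [not_le] at hcon
    set D := Metric.diam (j '' K)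
    obtain ⟨t, ht, ht'⟩ := hfin (D / 2) (by linarith)
    have hn : (0 : ℝ) < t.card := by
      obtain ⟨y, hy⟩ := hK2
      obtain ⟨x, hx, -⟩ := ht' y hy
      exact_mod_cast Finset.card_pos.2 ⟨x, hx⟩
    have hMc : Convex ℝ (j '' M) := by
      rintro _ ⟨x, hx, rfl⟩ _ ⟨y, hy, rfl⟩ s r h1 h2 h3
      obtain ⟨z, hz⟩ := hconv ⟨x, rfl⟩ ⟨y, rfl⟩ h1 h2 h3
      exact ⟨z, hM4 x hx y hy s r h1 h2 h3 z hz, hz⟩
    have hsum : ∑ _x ∈ t, (t.card : ℝ)⁻¹ = 1 := by simp [hn.ne']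
    obtain ⟨u, hu, hu'⟩ := hMc.sum_mem (t := t) (w := fun _ => (t.card : ℝ)⁻¹) (z := j)
      (fun _ _ => by positivity) hsum fun x hx => ⟨x, hKM (ht x hx), rfl⟩
    have hur : ∀ k ∈ K, dist (j u) (j k) ≤ D - (t.card : ℝ)⁻¹ * (D / 2) := by
      intro k hk
      obtain ⟨x, hx, hx'⟩ := ht' k hk
      have h1 : j u - j k = ∑ y ∈ t, (t.card : ℝ)⁻¹ • (j y - j k) := by
        simp only [smul_sub, Finset.sum_sub_distrib, ← Finset.sum_smul, hsum, one_smul, hu']
      rw [dist_eq_norm, h1]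
      refine (norm_sum_le_of_le t (n := fun y => (t.card : ℝ)⁻¹ * (D - if y = x then D / 2 else 0))
        fun y hy => ?_).trans (le_of_eq ?_)
      · rw [norm_smul, Real.norm_of_nonneg (by positivity), ← dist_eq_norm]
        gcongr
        split_ifs with h
        · rw [h, dist_comm]
          linarith
        · simpa using hD y (ht y hy) k hk
      · rw [← Finset.mul_sum, Finset.sum_sub_distrib, Finset.sum_ite_eq' t x, if_pos hx]
        simp only [Finset.sum_const, nsmul_eq_mul]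
        field_simp
    have hr : 0 < (t.card : ℝ)⁻¹ * (D / 2) := by positivity
    set r := D - (t.card : ℝ)⁻¹ * (D / 2)
    have hsub := hM5 (M ∩ ⋂ k ∈ K, {y | dist (j y) (j k) ≤ r}) inter_subset_left
      (hM1.inter (isClosed_biInter fun k _ => hball _ _)) ⟨u, hu, mem_iInter₂.2 hur⟩ ⟨by
        intro f hf x hx
        refine ⟨hM3 f hf hx.1, mem_iInter₂.2 fun k hk => ?_⟩
        have hx' := mem_iInter₂.1 hx.2
        have key : ∀ f : Y → Y, MapsTo f K K → (∀ x, a (f x) = e x) →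
            (∀ x y, dist (j (f x)) (j (f y)) ≤ dist (j x) (j y)) → dist (j (f x)) (j k) ≤ r := by
          intro f h1 h2 h3
          refine le_of_forall_pos_le_add fun ε hε => ?_
          obtain ⟨y, hy, hy'⟩ := hdense f h1 h2 k hk ε hε
          exact (dist_triangle _ (j (f y)) _).trans (add_le_add ((h3 x y).trans (hx' y hy)) hy')
        simp only [List.mem_cons, List.not_mem_nil, or_false] at hf
        rcases hf with rfl | rfl | rfl | rfl
        · have := (ne x k).trans (hx' k hk)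
          rwa [hKe k hk] at this
        · have := (na x (b k)).trans (hx' _ (hKb hk))
          rwa [hab, hKe k hk] at this
        · exact key f hKb hab nb
        · exact key f hKc hac nc, by
        intro x hx y hy s q h1 h2 h3 z hz
        refine ⟨hM4 x hx.1 y hy.1 s q h1 h2 h3 z hz, mem_iInter₂.2 fun k hk => ?_⟩
        have := convex_closedBall (j k) r (mem_iInter₂.1 hx.2 k hk) (mem_iInter₂.1 hy.2 k hk) h1 h2 h3
        rwa [← hz] at this⟩
    have : D ≤ r := Metric.diam_le_of_forall_dist_le ((dist_nonneg).trans (hur _ hK2.some_mem)) (by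
      rintro _ ⟨x, hx, rfl⟩ _ ⟨y, hy, rfl⟩
      exact mem_iInter₂.1 (hsub (hKM hx)).2 y hy)
    exact this.not_gt (sub_lt_self _ hr)
  obtain ⟨x, hx⟩ := hK2
  have h1 : ∀ y ∈ K, y = x := fun y hy => hj (dist_le_zero.1 ((hD y hy x hx).trans hD0))
  have h2 : b x = x := h1 _ (hKb hx)
  refine ⟨x, hKe x hx, ?_, h2, h1 _ (hKc hx)⟩
  have := hab x
  rwa [h2, hKe x hx] at this

theorem result (𝕜 : Type) [RCLike 𝕜] (E : Type) [NormedAddCommGroup E] [NormedSpace 𝕜 E]
    [CompleteSpace E] (C : Set (WeakDual 𝕜 E)) (hne : C.Nonempty) (hcomp : IsCompact C)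
    (hconv : Convex ℝ C) (hsep : TopologicalSpace.IsSeparable (WeakDual.toStrongDual '' C))
    (T : S₂ → C → C) (hmul : ∀ s t x, T (s * t) x = T s (T t x))
    (hcont : ∀ s, Continuous (T s))
    (hnonexp : ∀ s x y, ‖WeakDual.toStrongDual (T s x).1 - WeakDual.toStrongDual (T s y).1‖ ≤
      ‖WeakDual.toStrongDual x.1 - WeakDual.toStrongDual y.1‖) :
    ∃ x : C, ∀ s, T s x = x := by
  haveI := isCompact_iff_compactSpace.1 hcomp
  haveI := hne.to_subtype
  have hr : range (fun x : C => WeakDual.toStrongDual x.1) = WeakDual.toStrongDual '' C :=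
    (image_eq_range _ _).symm
  have hn : ∀ s (x y : C), dist (WeakDual.toStrongDual (T s x).1) (WeakDual.toStrongDual (T s y).1) ≤
      dist (WeakDual.toStrongDual x.1) (WeakDual.toStrongDual y.1) := fun s x y => by
    simpa only [dist_eq_norm] using hnonexp s x y
  have hrel : ∀ i : Fin 3, i = 1 ∨ i = 2 →
      PresentedMonoid.of rels 0 * PresentedMonoid.of rels i = 1 := by
    intro i hi
    refine Quotient.sound (ConGen.Rel.of _ _ ⟨?_, rfl⟩)
    rcases hi with rfl | rfl <;> simp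
  obtain ⟨x, h0, h1, h2, h3⟩ := main (fun x : C => WeakDual.toStrongDual x.1)
    (WeakDual.toStrongDual.injective.comp Subtype.val_injective)
    (by rw [hr]; exact hconv.is_linear_image ⟨map_add _, fun _ _ => rfl⟩)
    (fun v r => (WeakDual.isClosed_closedBall v r).preimage continuous_subtype_val)
    (hr ▸ hsep) (T 1) (T (PresentedMonoid.of rels 0)) (T (PresentedMonoid.of rels 1))
    (T (PresentedMonoid.of rels 2)) (hcont _) (hcont _) (hn _) (hn _) (hn _) (hn _)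
    (fun x => by rw [← hmul, hrel 1 (Or.inl rfl)]) (fun x => by rw [← hmul, hrel 2 (Or.inr rfl)])
    (fun x => by rw [← hmul, one_mul]) (fun x => by rw [← hmul, one_mul])
  refine ⟨x, fun s => ?_⟩
  have hs : s ∈ Submonoid.closure (range (PresentedMonoid.of rels)) := by
    rw [PresentedMonoid.closure_range_of]
    trivial
  induction hs using Submonoid.closure_induction with
  | mem s hs =>
    obtain ⟨i, rfl⟩ := hs
    fin_cases i
    exacts [h1, h2, h3]
  | one => exact h0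
  | mul s t _ _ hs ht => rw [hmul, ht, hs]

end Pool.Agent.Results.MP_722163_an.Bicyclic
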